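import Pool.Agent.Run7.h421.Iso6

/-!
# Q1 does not depend on `k`, is local, and only depends on `G` up to finite coverings

`Run7.h421.excSpace μ S ε` is the span in `L²(G, μ)` of the functions `f` for which there is
a complex number `c` outside `[-|S| + ε, |S| - ε]` with `∑ s ∈ S, f (s x) = c f(x)` for almost
all `x`, and `Run7.h421.topSpace μ S ε` is the span of those `f` for which this holds with a
real number `c > |S| - ε`. They are finite-dimensional if and only if the operator has only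
finitely many eigenvalues, counted with multiplicity, outside the interval, respectively
in `(|S| - ε, ∞)`.
-/

set_option autoImplicit false

open MeasureTheory Topology

namespace Pool.Agent.Results.MP_4be2f9_an.DependsOnLieAlg

/-- Let `G` be a compact connected Hausdorff group which is not abelian and whose proper closed
normal subgroups are finite (for instance a simple compact Lie group), and let `p : G → G'` be a
continuous surjective homomorphism with finite kernel onto a compact Hausdorff group. The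
following are equivalent: Q1 has a positive answer for `G` and some `k ≥ 4`; the same for the
eigenvalues near `k` only; the same for the eigenvalues near `4` only and for the 4-element
sets contained in some neighbourhood of the identity only; there is one `ε > 0` which is good for
all finite symmetric sets of any size; and the same four statements for `G'`. -/
theorem result :
    ∀ (G : Type) [TopologicalSpace G] [T2Space G] [Group G] [IsTopologicalGroup G]
      [CompactSpace G] [ConnectedSpace G] [MeasurableSpace G] [BorelSpace G]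
      (μ : Measure G) [μ.IsHaarMeasure]
      (G' : Type) [TopologicalSpace G'] [T2Space G'] [Group G'] [IsTopologicalGroup G']
      [CompactSpace G'] [MeasurableSpace G'] [BorelSpace G']
      (ν : Measure G') [ν.IsHaarMeasure] (p : G →* G'),
      Continuous p → Function.Surjective p → (p.ker : Set G).Finite →
      (∃ a b : G, a * b ≠ b * a) →
      (∀ N : Subgroup G, N.Normal → IsClosed (N : Set G) → (N : Set G).Finite ∨ N = ⊤) →
      List.TFAE [
        ∃ k : ℕ, 4 ≤ k ∧ ∃ ε : ℝ, 0 < ε ∧ ∀ S : Finset G, S.card = k → (∀ s ∈ S, s⁻¹ ∈ S) →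
          Dense ((Subgroup.closure (S : Set G) : Subgroup G) : Set G) →
          FiniteDimensional ℂ (Run7.h421.excSpace μ S ε),
        ∃ k : ℕ, 4 ≤ k ∧ ∃ ε : ℝ, 0 < ε ∧ ∀ S : Finset G, S.card = k → (∀ s ∈ S, s⁻¹ ∈ S) →
          Dense ((Subgroup.closure (S : Set G) : Subgroup G) : Set G) →
          FiniteDimensional ℂ (Run7.h421.topSpace μ S ε),
        ∃ U ∈ 𝓝 (1 : G), ∃ ε : ℝ, 0 < ε ∧ ∀ S : Finset G, (S : Set G) ⊆ U → S.card = 4 →
          (∀ s ∈ S, s⁻¹ ∈ S) →
          Dense ((Subgroup.closure (S : Set G) : Subgroup G) : Set G) →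
          FiniteDimensional ℂ (Run7.h421.topSpace μ S ε),
        ∃ ε : ℝ, 0 < ε ∧ ∀ S : Finset G, (∀ s ∈ S, s⁻¹ ∈ S) →
          Dense ((Subgroup.closure (S : Set G) : Subgroup G) : Set G) →
          FiniteDimensional ℂ (Run7.h421.excSpace μ S ε),
        ∃ k : ℕ, 4 ≤ k ∧ ∃ ε : ℝ, 0 < ε ∧ ∀ S : Finset G', S.card = k → (∀ s ∈ S, s⁻¹ ∈ S) →
          Dense ((Subgroup.closure (S : Set G') : Subgroup G') : Set G') →
          FiniteDimensional ℂ (Run7.h421.excSpace ν S ε),
        ∃ k : ℕ, 4 ≤ k ∧ ∃ ε : ℝ, 0 < ε ∧ ∀ S : Finset G', S.card = k → (∀ s ∈ S, s⁻¹ ∈ S) →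
          Dense ((Subgroup.closure (S : Set G') : Subgroup G') : Set G') →
          FiniteDimensional ℂ (Run7.h421.topSpace ν S ε),
        ∃ U ∈ 𝓝 (1 : G'), ∃ ε : ℝ, 0 < ε ∧ ∀ S : Finset G', (S : Set G') ⊆ U → S.card = 4 →
          (∀ s ∈ S, s⁻¹ ∈ S) →
          Dense ((Subgroup.closure (S : Set G') : Subgroup G') : Set G') →
          FiniteDimensional ℂ (Run7.h421.topSpace ν S ε),
        ∃ ε : ℝ, 0 < ε ∧ ∀ S : Finset G', (∀ s ∈ S, s⁻¹ ∈ S) →
          Dense ((Subgroup.closure (S : Set G') : Subgroup G') : Set G') →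
          FiniteDimensional ℂ (Run7.h421.excSpace ν S ε)] := by
  intro G _ _ _ _ _ _ _ _ μ _ G' _ _ _ _ _ _ _ ν _ p hpc hps hfin hab hN
  haveI : Finite p.ker := hfin.to_subtype
  haveI : Fintype p.ker := Fintype.ofFinite _
  haveI : ConnectedSpace G' := hps.connectedSpace hpc
  have hG : Run7.h421.Simp G := ⟨hab, hN⟩
  have hG' : Run7.h421.Simp G' := hG.descend p hpc hps
  obtain ⟨h1, h2⟩ := Run7.h421.thmL μ hG
  obtain ⟨h1', h2'⟩ := Run7.h421.thmL ν hG'
  tfae_have 1 → 2 := by
    rintro ⟨k, hk, ε, hε, h⟩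
    refine ⟨k, hk, ε, hε, fun S h3 h4 h5 => ?_⟩
    haveI := h S h3 h4 h5
    exact Submodule.finiteDimensional_of_le (Run7.h421.top_le_exc μ S ε)
  tfae_have 2 → 4 := h1
  tfae_have 4 → 3 := by
    rintro ⟨ε, hε, h⟩
    refine ⟨Set.univ, Filter.univ_mem, ε, hε, fun S _ _ h4 h5 => ?_⟩
    haveI := h S h4 h5
    exact Submodule.finiteDimensional_of_le (Run7.h421.top_le_exc μ S ε)
  tfae_have 3 → 4 := h2
  tfae_have 4 → 1 := by
    rintro ⟨ε, hε, h⟩
    exact ⟨4, le_rfl, ε, hε, fun S _ h4 h5 => h S h4 h5⟩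
  tfae_have 5 → 6 := by
    rintro ⟨k, hk, ε, hε, h⟩
    refine ⟨k, hk, ε, hε, fun S h3 h4 h5 => ?_⟩
    haveI := h S h3 h4 h5
    exact Submodule.finiteDimensional_of_le (Run7.h421.top_le_exc ν S ε)
  tfae_have 6 → 8 := h1'
  tfae_have 8 → 7 := by
    rintro ⟨ε, hε, h⟩
    refine ⟨Set.univ, Filter.univ_mem, ε, hε, fun S _ _ h4 h5 => ?_⟩
    haveI := h S h4 h5
    exact Submodule.finiteDimensional_of_le (Run7.h421.top_le_exc ν S ε)
  tfae_have 7 → 8 := h2'
  tfae_have 8 → 5 := by
    rintro ⟨ε, hε, h⟩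
    exact ⟨4, le_rfl, ε, hε, fun S _ h4 h5 => h S h4 h5⟩
  tfae_have 8 → 2 := by
    rintro ⟨ε, hε, h⟩
    obtain ⟨ε', hε', h'⟩ := Run7.h421.lift_gap μ ν p hpc hps ⟨ε, hε, fun S h4 h5 => by
      haveI := h S h4 h5
      exact Submodule.finiteDimensional_of_le (Run7.h421.top_le_exc ν S ε)⟩
    exact ⟨4, le_rfl, ε', hε', h'⟩
  tfae_have 4 → 6 := by
    rintro ⟨ε, hε, h⟩
    obtain ⟨ε', hε', h'⟩ := Run7.h421.push_gap μ ν p hpc hps ⟨ε, hε, fun S h4 h5 => by
      haveI := h S h4 h5
      exact Submodule.finiteDimensional_of_le (Run7.h421.top_le_exc μ S ε)⟩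
    exact ⟨4, le_rfl, ε', hε', fun S _ h4 h5 => h' S h4 h5⟩
  tfae_finish

end Pool.Agent.Results.MP_4be2f9_an.DependsOnLieAlg
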