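import Pool.Agent.Run7.h421.SOe

/-!
# The `ε` of Q1 must depend on the group

`Run7.h421.topSpace μ S ε` is the span in `L²(G, μ)` of the functions `f` for which there is
a real number `c > |S| - ε` with `∑ s ∈ S, f (s x) = c f(x)` for almost all `x`. It is
infinite-dimensional if and only if the operator has infinitely many eigenvalues, counted with
multiplicity, in `(|S| - ε, |S|]`.
-/

set_option autoImplicit false

open MeasureTheory

namespace Pool.Agent.Results.MP_4be2f9_an.EpsDependsOnG

/-- For all `n ≥ 3`, `k ≥ 4` and `ε > 2 - 2 cos (π / (n - 1))` there is a symmetric set `S` of `k`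
elements of `SO(n)` which generates a dense subgroup and for which the space of the
eigenfunctions with eigenvalue greater than `k - ε` is infinite-dimensional. So no `ε > 0` is good
for all the groups `SO(n)`, and in `SO(n)` the `ε` of Q1 is at most `(π / (n - 1))²`,
for every `k`. -/
theorem result :
    ∀ (n : ℕ), 3 ≤ n →
      ∀ [MeasurableSpace (Matrix.specialOrthogonalGroup (Fin n) ℝ)]
        [BorelSpace (Matrix.specialOrthogonalGroup (Fin n) ℝ)]
        (μ : Measure (Matrix.specialOrthogonalGroup (Fin n) ℝ)) [μ.IsHaarMeasure]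
        (k : ℕ), 4 ≤ k → ∀ ε : ℝ, 2 - 2 * Real.cos (Real.pi / ((n : ℝ) - 1)) < ε →
        ∃ S : Finset (Matrix.specialOrthogonalGroup (Fin n) ℝ), S.card = k ∧
          (∀ s ∈ S, s⁻¹ ∈ S) ∧
          Dense ((Subgroup.closure (S : Set (Matrix.specialOrthogonalGroup (Fin n) ℝ)) :
            Subgroup (Matrix.specialOrthogonalGroup (Fin n) ℝ)) :
            Set (Matrix.specialOrthogonalGroup (Fin n) ℝ)) ∧
          ¬ FiniteDimensional ℂ (Run7.h421.topSpace μ S ε) := by
  intro n hn _ _ μ _ k hk ε hε
  obtain ⟨M, rfl⟩ : ∃ M, n = M + 1 := ⟨n - 1, by omega⟩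
  refine Run7.h421.SO_top μ (by omega) hk ?_
  have h : ((M + 1 : ℕ) : ℝ) - 1 = M := by push_cast; ring
  rwa [h] at hε

end Pool.Agent.Results.MP_4be2f9_an.EpsDependsOnG
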