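import Pool.Agent.Run7.h421.ThmC

/-!
# The uniform gap of Q1 propagates from infinite closed subgroups

`Run7.h421.excSpace μ S ε` is the span in `L²(G, μ)` of the functions `f` for which there is
a complex number `c` outside `[-|S| + ε, |S| - ε]` with `∑ s ∈ S, f (s x) = c f(x)` for almost
all `x`; it is finite-dimensional if and only if the operator has only finitely many
eigenvalues outside the interval, counted with multiplicity.
-/

set_option autoImplicit false

open MeasureTheory

namespace Pool.Agent.Results.MP_4be2f9_an.PropSub

/-- Let `G` be a compact connected Hausdorff group which is not abelian and whose proper closed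
normal subgroups are finite (for instance a simple compact Lie group). For all `m`, `k₀` and
`η > 0` there is `ε > 0` such that for all finite symmetric sets `S` generating a dense subgroup
of `G`: if for some infinite closed subgroup `H` there is a symmetric set `S₀ ⊆ H` of at most
`k₀` products of `m` elements of `S` for which `L²(H)` has a finite-dimensional exceptional
space with `η`, then `S` has a finite-dimensional exceptional space with `ε` on `L²(G)`. -/
theorem result :
    ∀ (G : Type) [TopologicalSpace G] [T2Space G] [Group G] [IsTopologicalGroup G]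
      [CompactSpace G] [ConnectedSpace G] [MeasurableSpace G] [BorelSpace G]
      (μ : Measure G) [μ.IsHaarMeasure],
      (∃ a b : G, a * b ≠ b * a) →
      (∀ N : Subgroup G, N.Normal → IsClosed (N : Set G) → (N : Set G).Finite ∨ N = ⊤) →
      ∀ (m k₀ : ℕ) (η : ℝ), 0 < η →
        ∃ ε : ℝ, 0 < ε ∧
          ∀ S : Finset G, (∀ s ∈ S, s⁻¹ ∈ S) →
            Dense ((Subgroup.closure (S : Set G) : Subgroup G) : Set G) →
            ∀ H : Subgroup G, IsClosed (H : Set G) → (H : Set G).Infinite →
            ∀ (ν : Measure H) [ν.IsHaarMeasure] (S₀ : Finset H),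
              S₀.card ≤ k₀ → (∀ s ∈ S₀, s⁻¹ ∈ S₀) →
              (∀ s ∈ S₀, ∃ l : List G, l.length = m ∧ (∀ x ∈ l, x ∈ S) ∧ l.prod = (s : G)) →
              FiniteDimensional ℂ (Run7.h421.excSpace ν S₀ η) →
              FiniteDimensional ℂ (Run7.h421.excSpace μ S ε) := by
  intro G _ _ _ _ _ _ _ _ μ _ hab hN m k₀ η hη
  exact Run7.h421.thmC G μ ⟨hab, hN⟩ m k₀ hη

end Pool.Agent.Results.MP_4be2f9_an.PropSub
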