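import Pool.Agent.Run7.h421.Zero3

/-!
# A zero-one law for the spectral gap, and what it means for Q1

* `Run7.h421.GapA μ`: uniform spectral gap on every compact set of tuples which generate dense
  subgroups, on the whole space of functions of mean zero (no exceptions);
* `Run7.h421.GenB μ`: for every `k` and for all `k`-tuples outside of a meagre set, the symmetric
  set `S` of its entries and their inverses has infinitely many eigenvalues (counted with
  multiplicity) greater than `|S| - ε`, for every `ε > 0`.
-/

set_option autoImplicit false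

open MeasureTheory Topology

namespace Pool.Agent.Results.MP_4be2f9_an.ZeroOne

/-- Let `G` be a compact connected Hausdorff group which is not abelian and whose proper closed
normal subgroups are finite (for instance a simple compact Lie group). Then exactly one of
`GapA` and `GenB` holds; and if `GenB` holds then Q1 has a negative answer for every
`k ≥ 4`. -/
theorem result :
    ∀ (G : Type) [TopologicalSpace G] [T2Space G] [Group G] [IsTopologicalGroup G]
      [CompactSpace G] [ConnectedSpace G] [MeasurableSpace G] [BorelSpace G]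
      (μ : Measure G) [μ.IsHaarMeasure],
      (∃ a b : G, a * b ≠ b * a) →
      (∀ N : Subgroup G, N.Normal → IsClosed (N : Set G) → (N : Set G).Finite ∨ N = ⊤) →
      Xor (Run7.h421.GapA μ) (Run7.h421.GenB μ) ∧
      (Run7.h421.GenB μ → ∀ k : ℕ, 4 ≤ k → ∀ ε : ℝ, 0 < ε →
        ∃ S : Finset G, S.card = k ∧ (∀ s ∈ S, s⁻¹ ∈ S) ∧
          Dense ((Subgroup.closure (S : Set G) : Subgroup G) : Set G) ∧
          ¬ FiniteDimensional ℂ (Run7.h421.topSpace μ S ε)) := by
  intro G _ _ _ _ _ _ _ _ μ _ hab hN
  rcases Run7.h421.zeroOne μ (⟨hab, hN⟩ : Run7.h421.Simp G) with ⟨hA, hB⟩ | ⟨hA, hB, h⟩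
  · exact ⟨Or.inl ⟨hA, hB⟩, fun h => absurd h hB⟩
  · exact ⟨Or.inr ⟨hB, hA⟩, fun _ => h⟩

end Pool.Agent.Results.MP_4be2f9_an.ZeroOne
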